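import Pool.Agent.H49R2.PY.Main
import Pool.Agent.H49R2.PY.MEM

/-!
# MP_3a8d2e_lc: #PolyaOrbits is complete for `#P` under AP-reducibility, for every integer `k ≥ 2`

All definitions are in `Pool/Agent/H49R2/PY/Defs.lean` (`polya`, `Good`, `IsRAS`, `run`, `output`,
`APReduces`), `Pool/Agent/H527R2/SharpP.lean` (`SharpP`, `strFn`) and `Pool/Agent/NPC/Defs.lean`
(`PolyTime`, `bits`).

## Idea of the proof

Let the dihedral group `D` of order 8 act on four points as `S_2 wr S_2`.  The quotient of `D` by its
centre is `Z_2 ^ 2`; the sums of `k ^ c(g)` over the cosets of the centre are `k ^ 4 + k ^ 2`,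
`2 k ^ 3`, `2 k ^ 2`, `2 k` for the pairs of bits `(p, q) = (0, 0), (1, 0), (0, 1), (1, 1)`.  After
division by the first one they are `1, a, b, c` with `c < a b`: the two bits repel each other (for
abelian 2-groups only attraction is possible).  For linear forms `p_i, q_i` on `F_2 ^ N` one gets a
permutation group of degree `4 L`, with at most `4 L` generators, for which the sum of `k ^ c(g)` is
`∑ x, ∏ i, w (p_i x) (q_i x)`.

Given a graph, use a block `g_v` of `M` variables for each vertex `v`, and for each ordered pair
`(u, v)` of vertices `L` gadgets whose forms are random forms in the blocks `u` and `v`.  The state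
of a vertex is `g_v = 0` or `g_v ≠ 0`.  The expectation of the partition function is
`∑ I, lam ^ |I| * rho ^ (L * e(I))` with `rho < 1` and a large fugacity `lam`, and the contribution
of each vertex is concentrated by a second moment estimate.  So with high probability the value of
#PolyaOrbits is close to `lam ^ s` times the number of independent sets of the maximal size `s`,
which for the graph of a CNF formula is the number of satisfying assignments.  The parsimonious
Cook-Levin theorem finishes the proof of hardness.  Membership in `#P`: certificates are pairs of a
permutation and a word fixed by it, membership in the group generated is decided by a table of Sims.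
-/

namespace Pool.Agent.Results.MP_3a8d2e_lc.APComplete

open Pool.Agent.NPC Pool.Agent.NPC.Cnt Pool.Agent.H49R2.PY

/-- **Main theorem.** For every integer `k ≥ 2`, #PolyaOrbits (with alphabet size `k`) is in `#P`,
and every function in `#P` is AP-reducible to it. -/
theorem result : ∀ k : ℕ, 2 ≤ k →
    SharpP (strFn (polya k)) ∧ ∀ h : List Bool → ℕ, SharpP h → APReduces h (strFn (polya k)) :=
  fun k hk => ⟨MEM_ok k, F1_ok k hk⟩

end Pool.Agent.Results.MP_3a8d2e_lc.APComplete
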